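import Mathlib
import Pool.Agent.H604Z.CatDefs
import Pool.Agent.H604Z.Nagata

set_option autoImplicit false

namespace Pool.Agent.Results.MP_afeaf0_al.ANonCatenarySolid

/-- For every prime `p` there is a Noetherian domain `R` of characteristic `p` that is not catenary
(so not universally catenary, so not excellent) whose absolute integral closure `R⁺` admits a
nonzero `R`-linear map to `R`. -/
theorem result : ∀ p : ℕ, p.Prime → ∃ (R : Type) (_ : CommRing R) (_ : IsDomain R),
    IsNoetherianRing R ∧ CharP R p ∧ ¬ Pool.Agent.H604Z.IsCatenaryRing R ∧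
      Pool.Agent.H604Z.HasSolidPlus R :=
  Pool.Agent.H604Z.Nagata.main

end Pool.Agent.Results.MP_afeaf0_al.ANonCatenarySolid
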